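import Mathlib

set_option autoImplicit false

namespace Pool.Agent.Results.MP_be9f3f_co.CayleyCover

/-- a graph: a reflexive and symmetric relation -/
def IsGraph {V : Type} (E : V → V → Prop) : Prop := (∀ a, E a a) ∧ ∀ a b, E a b → E b a

/-- `S` cannot be split into two nonempty parts without an edge between them -/
def Conn {V : Type} (E : V → V → Prop) (S : Set V) : Prop :=
  ¬ ∃ P Q : Set V, P.Nonempty ∧ Q.Nonempty ∧ P ∪ Q = S ∧ ∀ p ∈ P, ∀ q ∈ Q, ¬ E p q

/-- `C` is a maximal connected subset of `S` -/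
def IsComponent {V : Type} (E : V → V → Prop) (S C : Set V) : Prop :=
  Maximal (fun C => C ⊆ S ∧ Conn E C) C

/-- a homomorphism that is surjective on vertices and on edges -/
def IsEpi {V W : Type} (E : V → V → Prop) (F : W → W → Prop) (f : V → W) : Prop :=
  (∀ a b, E a b → F (f a) (f b)) ∧ Function.Surjective f ∧
    ∀ x y, F x y → ∃ a b, E a b ∧ f a = x ∧ f b = y

def IsConfluent {V W : Type} (E : V → V → Prop) (F : W → W → Prop) (f : V → W) : Prop :=
  IsEpi E F f ∧ ∀ Q, Conn F Q → ∀ C, IsComponent E (f ⁻¹' Q) C → f '' C = Q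

/-- vertex-transitive -/
def Homogeneous {V : Type} (E : V → V → Prop) : Prop :=
  ∀ x y, ∃ φ : V ≃ V, (∀ a b, E (φ a) (φ b) ↔ E a b) ∧ φ x = y

theorem conn_insert {V : Type} {E : V → V → Prop} (hE : IsGraph E) {C : Set V} (hC : Conn E C)
    {t : V} (h : C = ∅ ∨ ∃ s ∈ C, E s t) : Conn E (insert t C) := by
  have key : ∀ P Q : Set V, Q.Nonempty → P ∪ Q = insert t C → (∀ p ∈ P, ∀ q ∈ Q, ¬ E p q) →
      t ∈ P → False := by
    intro P Q hQ hU hn ht
    have hQC : Q ⊆ C := by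
      intro q hq
      rcases (hU ▸ Or.inr hq : q ∈ insert t C) with e | e
      · exact absurd (hE.1 t) (e ▸ hn t ht q hq)
      · exact e
    rcases h with h | ⟨s, hs, h⟩
    · exact hQ.ne_empty (Set.subset_eq_empty hQC h)
    · have hsP : s ∈ P := by
        rcases (hU.symm ▸ Or.inr hs : s ∈ P ∪ Q) with e | e
        · exact e
        · exact absurd (hE.2 _ _ h) (hn t ht s e)
      refine hC ⟨P ∩ C, Q, ⟨s, hsP, hs⟩, hQ, ?_, fun p hp => hn p hp.1⟩
      ext x
      refine ⟨fun hx => hx.elim (fun a => a.2) (fun a => hQC a), fun hx => ?_⟩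
      rcases (hU.symm ▸ Or.inr hx : x ∈ P ∪ Q) with e | e
      · exact Or.inl ⟨e, hx⟩
      · exact Or.inr e
  rintro ⟨P, Q, hP, hQ, hU, hn⟩
  rcases (hU.symm ▸ Or.inl rfl : t ∈ P ∪ Q) with e | e
  · exact key P Q hQ hU hn e
  · exact key Q P hP (Set.union_comm _ _ ▸ hU) (fun q hq p hp h => hn p hp q hq (hE.2 _ _ h)) e

/-- a locally surjective homomorphism onto a connected graph is a confluent epimorphism -/
theorem confl {V W : Type} {E : V → V → Prop} {F : W → W → Prop} (hE : IsGraph E)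
    (hF : Conn F Set.univ) (f : V → W) (v0 : V) (h1 : ∀ a b, E a b → F (f a) (f b))
    (h2 : ∀ a y, F (f a) y → ∃ b, E a b ∧ f b = y) : IsConfluent E F f := by
  have hs : Function.Surjective f := by
    intro y
    by_contra hy
    refine hF ⟨Set.range f, (Set.range f)ᶜ, ⟨_, v0, rfl⟩, ⟨y, hy⟩, Set.union_compl_self _, ?_⟩
    rintro _ ⟨a, rfl⟩ q hq h
    obtain ⟨b, -, hb⟩ := h2 a q h
    exact hq ⟨b, hb⟩
  refine ⟨⟨h1, hs, fun x y h => ?_⟩, fun Q hQ C hC => ?_⟩
  · obtain ⟨a, rfl⟩ := hs x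
    obtain ⟨b, h3, h4⟩ := h2 a y h
    exact ⟨a, b, h3, rfl, h4⟩
  · have hsub : f '' C ⊆ Q := Set.image_subset_iff.2 hC.1.1
    refine hsub.antisymm fun y hy => ?_
    by_contra hn
    have ext : ∀ t, f t ∈ Q → (C = ∅ ∨ ∃ s ∈ C, E s t) → t ∈ C := fun t ht h =>
      hC.2 (y := insert t C) ⟨Set.insert_subset ht hC.1.1, conn_insert hE hC.1.2 h⟩
        (Set.subset_insert _ _) (Set.mem_insert _ _)
    rcases C.eq_empty_or_nonempty with h0 | h0
    · obtain ⟨t, rfl⟩ := hs y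
      exact hn ⟨t, ext t hy (Or.inl h0), rfl⟩
    · refine hQ ⟨f '' C, Q \ f '' C, h0.image f, ⟨y, hy, hn⟩, Set.union_sdiff_cancel hsub, ?_⟩
      rintro _ ⟨a, ha, rfl⟩ q hq h
      obtain ⟨b, h3, rfl⟩ := h2 a q h
      exact hq.2 ⟨b, ext b hq.1 (Or.inr ⟨a, ha, h3⟩), rfl⟩

theorem result (W : Type) [Finite W] (F : W → W → Prop) (hF : IsGraph F) (hc : Conn F Set.univ) :
    ∃ (V : Type) (_ : Finite V) (E : V → V → Prop) (f : V → W),
      IsGraph E ∧ Conn E Set.univ ∧ Homogeneous E ∧ IsConfluent E F f := by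
  classical
  rcases isEmpty_or_nonempty W with h0 | ⟨⟨x0⟩⟩
  · exact ⟨W, inferInstance, F, id, hF, hc, fun x => h0.elim x,
      ⟨fun _ _ h => h, Function.surjective_id, fun x => h0.elim x⟩,
      fun Q _ C _ => Subsingleton.elim _ _⟩
  let S : Set (Equiv.Perm W) := {s | ∃ a b, F a b ∧ s = Equiv.swap a b}
  let E : Subgroup.closure S → Subgroup.closure S → Prop := fun g h => ∃ s ∈ S, h.1 = s * g.1
  have hinv : ∀ s ∈ S, s⁻¹ = s := by
    rintro _ ⟨a, b, -, rfl⟩; exact Equiv.swap_inv a b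
  have hE : IsGraph E := by
    refine ⟨fun g => ⟨_, ⟨x0, x0, hF.1 _, rfl⟩, by simp [Equiv.swap_self, ← Equiv.Perm.one_def]⟩, ?_⟩
    rintro g h ⟨s, hs, e⟩
    exact ⟨s, hs, by rw [e, ← mul_assoc]; nth_rw 1 [← hinv s hs]; simp⟩
  refine ⟨Subgroup.closure S, inferInstance, E, fun g => g.1 x0, hE, ?_, ?_, confl hE hc _ 1 ?_ ?_⟩
  · have key : ∀ P Q : Set (Subgroup.closure S), Q.Nonempty → P ∪ Q = Set.univ →
        (∀ p ∈ P, ∀ q ∈ Q, ¬ E p q) → 1 ∈ P → False := by
      rintro P Q ⟨⟨q, hq⟩, hQ⟩ hU hn h1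
      have step : ∀ s (hs : s ∈ S) g (hg : g ∈ Subgroup.closure S), ⟨g, hg⟩ ∈ P →
          ⟨s * g, mul_mem (Subgroup.subset_closure hs) hg⟩ ∈ P := by
        intro s hs g hg h
        rcases (hU.symm ▸ Set.mem_univ _ :
          (⟨s * g, mul_mem (Subgroup.subset_closure hs) hg⟩ : Subgroup.closure S) ∈ P ∪ Q) with e | e
        · exact e
        · exact absurd ⟨s, hs, rfl⟩ (hn _ h _ e)
      have : ⟨q, hq⟩ ∈ P := by
        clear hQ
        induction hq using Subgroup.closure_induction_left with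
        | one => exact h1
        | mul_left s hs g hg ih => exact step s hs g hg ih
        | inv_mul_cancel s hs g hg ih => simpa only [hinv s hs] using step s hs g hg ih
      exact hn _ this _ hQ (hE.1 _)
    rintro ⟨P, Q, hP, hQ, hU, hn⟩
    rcases (hU.symm ▸ Set.mem_univ _ : 1 ∈ P ∪ Q) with e | e
    · exact key P Q hQ hU hn e
    · exact key Q P hP (Set.union_comm _ _ ▸ hU) (fun q hq p hp h => hn p hp q hq (hE.2 _ _ h)) e
  · intro x y
    refine ⟨Equiv.mulRight (x⁻¹ * y), fun a b => ?_, by simp⟩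
    simp only [E, Equiv.coe_mulRight, Subgroup.coe_mul, ← mul_assoc, mul_left_inj]
  · rintro g h ⟨_, ⟨a, b, hab, rfl⟩, e⟩
    simp only [e, Equiv.Perm.mul_apply, Equiv.swap_apply_def]
    split_ifs with h1 h2
    · rwa [h1]
    · rw [h2]; exact hF.2 _ _ hab
    · exact hF.1 _
  · intro g y h
    have hs : Equiv.swap (g.1 x0) y ∈ S := ⟨_, _, h, rfl⟩
    exact ⟨⟨_, mul_mem (Subgroup.subset_closure hs) g.2⟩, ⟨_, hs, rfl⟩, by simp⟩

end Pool.Agent.Results.MP_be9f3f_co.CayleyCover
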